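import Pool.Agent.Helper38.EC.Goals

/-!
# MP_ecc237_nt, Part I, packet RP: the functions `GV (fb b p)` on the positive axis
-/

set_option autoImplicit false

open MeasureTheory Filter Topology Set Complex

namespace Pool.Agent.Helper60.EC.I_RP

open EC237 EC237.PI

/-- The real integrand. -/
noncomputable def gg (b : ℕ) (p : ℤ) (x : ℝ) : ℝ := Kb x ^ b * Ib x ^ (6 - b) * x ^ p

theorem mem_Qd {x : ℝ} (hx : 0 < x) : (x : ℂ) ∈ Qd :=
  ⟨by simpa using hx.le, by simp, by exact_mod_cast hx.ne'⟩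

theorem fb_real (hIB : G_IB) (hKB : G_KB) (b : ℕ) (p : ℤ) {x : ℝ} (hx : 0 < x) :
    fb b p (x : ℂ) = (gg b p x : ℂ) := by
  rw [fb, gg, hKB x hx, hIB.1 x]
  push_cast
  rfl

theorem gg_re (hIB : G_IB) (hKB : G_KB) (b : ℕ) (p : ℤ) {x : ℝ} (hx : 0 < x) :
    gg b p x = (fb b p (x : ℂ)).re := by
  rw [fb_real hIB hKB b p hx, Complex.ofReal_re]

theorem gg_norm (hIB : G_IB) (hKB : G_KB) (b : ℕ) (p : ℤ) {x : ℝ} (hx : 0 < x) :
    ‖gg b p x‖ = ‖fb b p (x : ℂ)‖ := by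
  rw [fb_real hIB hKB b p hx, Complex.norm_real]

theorem gg_cont (hFB : G_FB) (hIB : G_IB) (hKB : G_KB) (b : ℕ) (hb : b ≤ 6) (p : ℤ)
    (hp : p = 1 ∨ p = -1) : ContinuousOn (gg b p) (Ioi 0) := by
  obtain ⟨C, hC, h⟩ := hFB
  have h1 := (h b hb p hp).1
  have h2 : ContinuousOn (fun x : ℝ => (fb b p (x : ℂ)).re) (Ioi 0) :=
    Complex.continuous_re.comp_continuousOn
      (h1.comp Complex.continuous_ofReal.continuousOn fun x hx => mem_Qd hx)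
  exact h2.congr fun x hx => gg_re hIB hKB b p hx

theorem vadm (hFB : G_FB) (b : ℕ) (hb : b ≤ 6) (p : ℤ) (hp : p = 1 ∨ p = -1) :
    VAdm (fb b p) := by
  obtain ⟨C, hC, h⟩ := hFB
  obtain ⟨h1, h2, h3, -⟩ := h b hb p hp
  refine ⟨h1, h2, fun X => ⟨C * Real.exp (6 * |X|), fun z hz hX h4 => ?_⟩⟩
  refine (h3 z hz h4).trans ?_
  have h5 : 0 ≤ z.re := hz.1
  have h6 : (b : ℝ) ≤ 6 := by exact_mod_cast hb
  have h7 : (0 : ℝ) ≤ b := Nat.cast_nonneg b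
  have h8 : X ≤ |X| := le_abs_self X
  have h9 : (6 - 2 * (b:ℝ)) * z.re ≤ 6 * |X| := by nlinarith [mul_nonneg h7 h5]
  gcongr

theorem decay (hFB : G_FB) (b : ℕ) (hb3 : 3 ≤ b) (hb : b ≤ 6) (p : ℤ) (hp : p = 1 ∨ p = -1) :
    ∃ C : ℝ, ∀ z ∈ Qd, 1 ≤ ‖z‖ → ‖fb b p z‖ ≤ C / ‖z‖ ^ 2 := by
  obtain ⟨C, hC, h⟩ := hFB
  obtain ⟨-, -, h3, -⟩ := h b hb p hp
  refine ⟨C, fun z hz h4 => (h3 z hz h4).trans ?_⟩
  have h5 : 0 ≤ z.re := hz.1
  have h6 : (3 : ℝ) ≤ b := by exact_mod_cast hb3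
  have h7 : Real.exp ((6 - 2 * (b:ℝ)) * z.re) ≤ 1 := by
    rw [Real.exp_le_one_iff]
    nlinarith
  have h8 : C * Real.exp ((6 - 2 * (b:ℝ)) * z.re) ≤ C := by nlinarith
  gcongr

theorem part2 (hFB : G_FB) (hVPA : G_VPA) (hIB : G_IB) (hKB : G_KB) (b : ℕ) (hb : b ≤ 6)
    (p : ℤ) (hp : p = 1 ∨ p = -1) (s t : ℝ) (hs : 0 < s) (hst : s ≤ t) :
    GV (fb b p) t - GV (fb b p) s =
      ((∫ x in s..t, Kb x ^ b * Ib x ^ (6 - b) * x ^ p : ℝ) : ℂ) := by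
  have h1 := (hVPA (fb b p) (vadm hFB b hb p hp)).2.1 s t 0 hs.le hst le_rfl (Or.inl hs)
  simp only [Complex.ofReal_zero, zero_mul, add_zero] at h1
  rw [h1, ← intervalIntegral.integral_ofReal]
  refine intervalIntegral.integral_congr fun x hx => ?_
  rw [Set.uIcc_of_le hst] at hx
  exact fb_real hIB hKB b p (hs.trans_le hx.1)

theorem part3 (hFB : G_FB) (hVPD : G_VPD) (hIB : G_IB) (hKB : G_KB) (b : ℕ)
    (hb3 : 3 ≤ b) (hb : b ≤ 6) (p : ℤ) (hp : p = 1 ∨ p = -1) (t : ℝ) (ht : 0 < t) :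
    IntegrableOn (gg b p) (Ioi t) ∧
    GV (fb b p) t = ((-∫ x in Ioi t, gg b p x : ℝ) : ℂ) := by
  obtain ⟨h1, h2⟩ := hVPD (fb b p) (vadm hFB b hb p hp) (decay hFB b hb3 hb p hp) t ht
  constructor
  · have h3 : IntegrableOn (fun x : ℝ => (fb b p (x : ℂ)).re) (Ioi t) := h1.re
    refine h3.congr_fun (fun x hx => ?_) measurableSet_Ioi
    exact (gg_re hIB hKB b p (ht.trans hx)).symm
  · rw [h2]
    push_cast
    rw [← integral_complex_ofReal]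
    congr 1
    exact setIntegral_congr_fun measurableSet_Ioi fun x hx => fb_real hIB hKB b p (ht.trans hx)

theorem near0 (hFB : G_FB) (hIB : G_IB) (hKB : G_KB) (b : ℕ) (hb : b ≤ 6) (k : ℕ) :
    IntegrableOn (fun x => gg b 1 x * x ^ k) (Ioc 0 1) := by
  have hc := gg_cont hFB hIB hKB b hb 1 (Or.inl rfl)
  obtain ⟨C, hC, h⟩ := hFB
  obtain ⟨-, -, -, h4⟩ := h b hb 1 (Or.inl rfl)
  have hc' : ContinuousOn (fun x => gg b 1 x * x ^ k) (Ioc (0:ℝ) 1) :=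
    (hc.mono fun x hx => hx.1).mul (continuous_pow k).continuousOn
  have hi : IntegrableOn (fun _ : ℝ => C) (Ioc (0:ℝ) 1) := by simp
  refine Integrable.mono' hi (hc'.aestronglyMeasurable measurableSet_Ioc) ?_
  refine (ae_restrict_iff' measurableSet_Ioc).2 (Eventually.of_forall fun x hx => ?_)
  have h5 : ‖gg b 1 x‖ ≤ C := by
    rw [gg_norm hIB hKB b 1 hx.1]
    refine (h4 x (mem_Qd hx.1) ?_).1
    rw [Complex.norm_real, Real.norm_of_nonneg hx.1.le]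
    exact hx.2
  have h6 : ‖x ^ k‖ ≤ 1 := by
    rw [norm_pow, Real.norm_of_nonneg hx.1.le]
    exact pow_le_one₀ hx.1.le hx.2
  rw [norm_mul]
  calc ‖gg b 1 x‖ * ‖x ^ k‖ ≤ C * 1 := mul_le_mul h5 h6 (norm_nonneg _) hC.le
    _ = C := mul_one C

theorem far (hFB : G_FB) (hIB : G_IB) (hKB : G_KB) (b : ℕ) (hb4 : 4 ≤ b) (hb : b ≤ 6) :
    IntegrableOn (fun x => gg b 1 x * x ^ 2) (Ioi 1) := by
  have hc := gg_cont hFB hIB hKB b hb 1 (Or.inl rfl)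
  obtain ⟨C, hC, h⟩ := hFB
  obtain ⟨-, -, h3, -⟩ := h b hb 1 (Or.inl rfl)
  have hc' : ContinuousOn (fun x => gg b 1 x * x ^ 2) (Ioi (1:ℝ)) :=
    (hc.mono fun x hx => (zero_lt_one.trans hx : (0:ℝ) < x)).mul (continuous_pow 2).continuousOn
  have h5 : IntegrableOn (fun x : ℝ => C * Real.exp (-x)) (Ioi 1) :=
    (integrableOn_exp_neg_Ioi 1).const_mul C
  refine Integrable.mono' h5 (hc'.aestronglyMeasurable measurableSet_Ioi) ?_
  refine (ae_restrict_iff' measurableSet_Ioi).2 (Eventually.of_forall fun x hx => ?_)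
  have hx1 : (1 : ℝ) < x := hx
  have hx0 : (0 : ℝ) < x := zero_lt_one.trans hx1
  have h6 := h3 x (mem_Qd hx0) (by
    rw [Complex.norm_real, Real.norm_of_nonneg hx0.le]; exact hx1.le)
  rw [Complex.norm_real, Real.norm_of_nonneg hx0.le, Complex.ofReal_re] at h6
  rw [norm_mul, gg_norm hIB hKB b 1 hx0, norm_pow, Real.norm_of_nonneg hx0.le]
  have h7 : Real.exp ((6 - 2 * (b:ℝ)) * x) ≤ Real.exp (-x) := by
    rw [Real.exp_le_exp]
    have h8 : (4 : ℝ) ≤ b := by exact_mod_cast hb4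
    nlinarith
  calc ‖fb b 1 (x : ℂ)‖ * x ^ 2 ≤ (C * Real.exp ((6 - 2 * (b:ℝ)) * x) / x ^ 2) * x ^ 2 := by
        gcongr
    _ = C * Real.exp ((6 - 2 * (b:ℝ)) * x) := by field_simp
    _ ≤ C * Real.exp (-x) := by gcongr

theorem thm (hFB : G_FB) (hVPA : G_VPA) (hVPD : G_VPD) (hIB : G_IB) (hKB : G_KB) : G_RP := by
  have hU : Ioi (0:ℝ) = Ioc 0 1 ∪ Ioi 1 := (Ioc_union_Ioi_eq_Ioi zero_le_one).symm
  refine ⟨vadm hFB, fun b hb p hp s t hs hst => part2 hFB hVPA hIB hKB b hb p hp s t hs hst,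
    fun b hb3 hb p hp t ht => part3 hFB hVPD hIB hKB b hb3 hb p hp t ht, ?_, ?_⟩
  · intro b hb3 hb
    have h1 := near0 hFB hIB hKB b hb 0
    have h2 := (part3 hFB hVPD hIB hKB b hb3 hb 1 (Or.inl rfl) 1 one_pos).1
    rw [hU]
    refine IntegrableOn.union ?_ ?_
    · refine h1.congr_fun (fun x _ => ?_) measurableSet_Ioc
      simp only [gg, zpow_one, pow_zero, mul_one]
    · refine h2.congr_fun (fun x _ => ?_) measurableSet_Ioi
      simp only [gg, zpow_one]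
  · intro b hb4 hb
    have h1 := near0 hFB hIB hKB b hb 2
    have h2 := far hFB hIB hKB b hb4 hb
    rw [hU]
    refine IntegrableOn.union ?_ ?_
    · refine h1.congr_fun (fun x _ => ?_) measurableSet_Ioc
      simp only [gg, zpow_one]
      ring
    · refine h2.congr_fun (fun x _ => ?_) measurableSet_Ioi
      simp only [gg, zpow_one]
      ring

end Pool.Agent.Helper60.EC.I_RP
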